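import Pool.Agent.DC.Defs
import Pool.Agent.H96.PS.ADefs

/-!
# Project DC, block E: uniform ellipticity for a twist-periodic metric
-/

open scoped ENNReal UpperHalfPlane Matrix ContDiff
open MeasureTheory Set

namespace Pool.Agent.DC

/-- the region where all curves are shorter than `1` -/
def shortRegion (d : ℕ) : Set (PS.E (d + d)) := {x | ∀ e : Fin d, x (Fin.castAdd d e) < 0}

theorem isOpen_shortRegion (d : ℕ) : IsOpen (shortRegion d) := by
  have h : shortRegion d = ⋂ e : Fin d, {x : PS.E (d + d) | x (Fin.castAdd d e) < 0} := by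
    ext x; simp [shortRegion]
  rw [h]
  exact isOpen_iInter_of_finite fun e => isOpen_lt (by fun_prop) continuous_const

theorem convex_shortRegion (d : ℕ) : Convex ℝ (shortRegion d) := by
  have h : shortRegion d = ⋂ e : Fin d, {x : PS.E (d + d) |
      (EuclideanSpace.proj (Fin.castAdd d e) : PS.E (d + d) →L[ℝ] ℝ).toLinearMap x < 0} := by
    ext x; simp [shortRegion]
  rw [h]
  exact convex_iInter fun e => convex_halfSpace_lt (LinearMap.isLinear _) 0

/-- the open slab with all twists -/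
def slab (d : ℕ) (A B : Fin d → ℝ) : Set (PS.E (d + d)) :=
  {x | ∀ e : Fin d, A e < x (Fin.castAdd d e) ∧ x (Fin.castAdd d e) < B e}

theorem isOpen_slab (d : ℕ) (A B : Fin d → ℝ) : IsOpen (slab d A B) := by
  have h : slab d A B = ⋂ e : Fin d, ({x : PS.E (d + d) | A e < x (Fin.castAdd d e)} ∩
      {x : PS.E (d + d) | x (Fin.castAdd d e) < B e}) := by
    ext x; simp [slab]
  rw [h]
  exact isOpen_iInter_of_finite fun e => (isOpen_lt continuous_const (by fun_prop)).inter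
    (isOpen_lt (by fun_prop) continuous_const)

theorem convex_slab (d : ℕ) (A B : Fin d → ℝ) : Convex ℝ (slab d A B) := by
  have h : slab d A B = ⋂ e : Fin d, ({x : PS.E (d + d) | A e <
      (EuclideanSpace.proj (Fin.castAdd d e) : PS.E (d + d) →L[ℝ] ℝ).toLinearMap x} ∩
      {x : PS.E (d + d) |
        (EuclideanSpace.proj (Fin.castAdd d e) : PS.E (d + d) →L[ℝ] ℝ).toLinearMap x < B e}) := by
    ext x; simp [slab]
  rw [h]
  exact convex_iInter fun e => (convex_halfSpace_gt (LinearMap.isLinear _) _).inter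
    (convex_halfSpace_lt (LinearMap.isLinear _) _)

namespace Ellip

variable {d : ℕ}

lemma ev_castAdd (e e' : Fin d) : (PS.ev (Fin.natAdd d e) : PS.E (d + d)) (Fin.castAdd d e') = 0 := by
  unfold PS.ev
  rw [EuclideanSpace.single_apply, if_neg]
  intro h
  have := congrArg Fin.val h
  simp only [Fin.val_castAdd, Fin.val_natAdd] at this
  omega

lemma ev_natAdd (e e' : Fin d) : (PS.ev (Fin.natAdd d e) : PS.E (d + d)) (Fin.natAdd d e') =
    if e' = e then 1 else 0 := by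
  unfold PS.ev
  rw [EuclideanSpace.single_apply]
  simp only [Fin.natAdd_inj]

lemma short_add {x : PS.E (d + d)} (hx : x ∈ shortRegion d) (e : Fin d) (t : ℝ) :
    x + t • PS.ev (Fin.natAdd d e) ∈ shortRegion d := by
  intro e'
  have : (x + t • PS.ev (Fin.natAdd d e) : PS.E (d + d)) (Fin.castAdd d e') =
      x (Fin.castAdd d e') := by
    simp [ev_castAdd, -Fin.natAdd_eq_addNat]
  rw [this]
  exact hx e'

variable {h : PS.E (d + d) → Matrix (Fin (d + d)) (Fin (d + d)) ℝ} {P : ℝ}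

lemma per_int (hper : ∀ x ∈ shortRegion d, ∀ e : Fin d, h (x + P • PS.ev (Fin.natAdd d e)) = h x)
    (e : Fin d) (n : ℤ) : ∀ x ∈ shortRegion d,
      h (x + ((n : ℝ) * P) • PS.ev (Fin.natAdd d e)) = h x := by
  induction n using Int.induction_on with
  | zero => intro x _; simp
  | succ i ih =>
    intro x hx
    have h1 : x + (((i : ℤ) + 1 : ℤ) * P : ℝ) • PS.ev (Fin.natAdd d e) =
        (x + (((i : ℤ) : ℝ) * P) • PS.ev (Fin.natAdd d e)) + P • PS.ev (Fin.natAdd d e) := by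
      push_cast
      rw [add_assoc, ← add_smul]; congr 2; ring
    rw [h1, hper _ (short_add hx e _) e, ih x hx]
  | pred i ih =>
    intro x hx
    have h1 : x + (((-(i : ℤ) : ℤ) : ℝ) * P) • PS.ev (Fin.natAdd d e) =
        (x + (((-(i : ℤ) - 1 : ℤ) : ℝ) * P) • PS.ev (Fin.natAdd d e)) +
          P • PS.ev (Fin.natAdd d e) := by
      push_cast
      rw [add_assoc, ← add_smul]; congr 2; ring
    have h2 := ih x hx
    rw [h1, hper _ (short_add hx e _) e] at h2
    exact h2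

lemma per_sum (hper : ∀ x ∈ shortRegion d, ∀ e : Fin d, h (x + P • PS.ev (Fin.natAdd d e)) = h x)
    (n : Fin d → ℤ) (s : Finset (Fin d)) : ∀ x ∈ shortRegion d,
      x + ∑ e ∈ s, ((n e : ℝ) * P) • PS.ev (Fin.natAdd d e) ∈ shortRegion d ∧
      h (x + ∑ e ∈ s, ((n e : ℝ) * P) • PS.ev (Fin.natAdd d e)) = h x := by
  classical
  induction s using Finset.induction_on with
  | empty => intro x hx; simpa using hx
  | insert a s ha ih =>
    intro x hx
    rw [Finset.sum_insert ha, ← add_assoc]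
    obtain ⟨h1, h2⟩ := ih _ (short_add hx a ((n a : ℝ) * P))
    exact ⟨h1, by rw [h2, per_int hper a (n a) x hx]⟩

/-- the compact fundamental box -/
def Kc (d : ℕ) (A B : Fin d → ℝ) (P : ℝ) : Set (PS.E (d + d)) :=
  {x | ∀ e : Fin d, (A e ≤ x (Fin.castAdd d e) ∧ x (Fin.castAdd d e) ≤ B e) ∧
    (0 ≤ x (Fin.natAdd d e) ∧ x (Fin.natAdd d e) ≤ P)}

lemma isCompact_Kc (A B : Fin d → ℝ) (P : ℝ) : IsCompact (Kc d A B P) := by
  have h1 : Kc d A B P = (EuclideanSpace.equiv (Fin (d + d)) ℝ).toHomeomorph ⁻¹'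
      (Icc (Fin.addCases (motive := fun _ => ℝ) A (fun _ => 0))
        (Fin.addCases (motive := fun _ => ℝ) B (fun _ => P))) := by
    ext x
    simp only [Kc, mem_setOf_eq, mem_preimage, mem_Icc, Pi.le_def]
    constructor
    · intro hx
      constructor
      · intro i
        refine Fin.addCases (fun e => ?_) (fun e => ?_) i
        · rw [Fin.addCases_left]; exact (hx e).1.1
        · rw [Fin.addCases_right]; exact (hx e).2.1
      · intro i
        refine Fin.addCases (fun e => ?_) (fun e => ?_) i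
        · rw [Fin.addCases_left]; exact (hx e).1.2
        · rw [Fin.addCases_right]; exact (hx e).2.2
    · rintro ⟨hx1, hx2⟩ e
      have a1 := hx1 (Fin.castAdd d e)
      have a2 := hx2 (Fin.castAdd d e)
      have a3 := hx1 (Fin.natAdd d e)
      have a4 := hx2 (Fin.natAdd d e)
      simp only [Fin.addCases_left, Fin.addCases_right] at a1 a2 a3 a4
      exact ⟨⟨a1, a2⟩, ⟨a3, a4⟩⟩
  rw [h1]
  exact (Homeomorph.isCompact_preimage _).2 isCompact_Icc

lemma Kc_sub {A B : Fin d → ℝ} (hB : ∀ e, B e < 0) : Kc d A B P ⊆ shortRegion d :=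
  fun _ hx e => lt_of_le_of_lt (hx e).1.2 (hB e)

lemma form_pos {M : Matrix (Fin (d + d)) (Fin (d + d)) ℝ} (hM : M.PosDef) {v : PS.E (d + d)}
    (hv : v ≠ 0) : 0 < ∑ i, ∑ j, M i j * v i * v j := by
  have h0 : (fun i => v i) ≠ 0 := by
    intro h
    apply hv
    ext i
    exact congrFun h i
  have h1 := hM.dotProduct_mulVec_pos h0
  have h2 : star (fun i => v i) ⬝ᵥ (M *ᵥ fun i => v i) = ∑ i, ∑ j, M i j * v i * v j := by
    simp only [dotProduct, Matrix.mulVec, Pi.star_apply, star_trivial, Finset.mul_sum]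
    refine Finset.sum_congr rfl fun i _ => Finset.sum_congr rfl fun j _ => ?_
    ring
  rw [h2] at h1
  exact h1

lemma form_cont {U : Set (PS.E (d + d))} (hm : PS.IsMetricOn h U) :
    ContinuousOn (fun p : PS.E (d + d) × PS.E (d + d) => ∑ i, ∑ j, h p.1 i j * p.2 i * p.2 j)
      (U ×ˢ univ) := by
  refine continuousOn_finsetSum _ fun i _ => continuousOn_finsetSum _ fun j _ => ?_
  have h1 : ContinuousOn (fun p : PS.E (d + d) × PS.E (d + d) => h p.1 i j) (U ×ˢ univ) :=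
    (hm.smooth i j).continuousOn.comp continuousOn_fst (fun p hp => hp.1)
  have h2 : Continuous (fun p : PS.E (d + d) × PS.E (d + d) => p.2 i) := by fun_prop
  have h3 : Continuous (fun p : PS.E (d + d) × PS.E (d + d) => p.2 j) := by fun_prop
  exact (h1.mul h2.continuousOn).mul h3.continuousOn

lemma reduce {A B : Fin d → ℝ} (hP : 0 < P) (hB : ∀ e, B e < 0)
    (hper : ∀ x ∈ shortRegion d, ∀ e : Fin d, h (x + P • PS.ev (Fin.natAdd d e)) = h x)
    {x : PS.E (d + d)} (hx : x ∈ slab d A B) : ∃ y ∈ Kc d A B P, h y = h x := by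
  have hxs : x ∈ shortRegion d := fun e => lt_trans (hx e).2 (hB e)
  set n : Fin d → ℤ := fun e => - ⌊x (Fin.natAdd d e) / P⌋ with hn
  obtain ⟨_, h2⟩ := per_sum hper n Finset.univ x hxs
  refine ⟨_, ?_, h2⟩
  intro e
  have c1 : (x + ∑ e, ((n e : ℝ) * P) • PS.ev (Fin.natAdd d e) : PS.E (d + d)) (Fin.castAdd d e) =
      x (Fin.castAdd d e) := by
    simp [ev_castAdd, -Fin.natAdd_eq_addNat]
  have c2 : (x + ∑ e, ((n e : ℝ) * P) • PS.ev (Fin.natAdd d e) : PS.E (d + d)) (Fin.natAdd d e) =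
      x (Fin.natAdd d e) + (n e : ℝ) * P := by
    simp [ev_natAdd, -Fin.natAdd_eq_addNat]
  rw [c1, c2]
  refine ⟨⟨(hx e).1.le, (hx e).2.le⟩, ?_⟩
  have f1 := Int.floor_le (x (Fin.natAdd d e) / P)
  have f2 := Int.lt_floor_add_one (x (Fin.natAdd d e) / P)
  rw [le_div_iff₀ hP] at f1
  rw [div_lt_iff₀ hP] at f2
  simp only [hn, Int.cast_neg]
  constructor <;> nlinarith

end Ellip

/-- uniform ellipticity of a metric which is periodic in the twist directions -/
theorem elliptic (d : ℕ) (h : PS.E (d + d) → Matrix (Fin (d + d)) (Fin (d + d)) ℝ)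
    (hm : PS.IsMetricOn h (shortRegion d)) (P : ℝ) (hP : 0 < P)
    (hper : ∀ x ∈ shortRegion d, ∀ e : Fin d, h (x + P • PS.ev (Fin.natAdd d e)) = h x)
    (A B : Fin d → ℝ) (hB : ∀ e, B e < 0) :
    ∃ c0 : ℝ, 0 < c0 ∧ ∀ x ∈ slab d A B, ∀ v : PS.E (d + d),
      c0 * ‖v‖ ^ 2 ≤ ∑ i, ∑ j, h x i j * v i * v j := by
  have hK : IsCompact (Ellip.Kc d A B P ×ˢ Metric.sphere (0 : PS.E (d + d)) 1) :=
    (Ellip.isCompact_Kc A B P).prod (isCompact_sphere _ _)
  have hc : ContinuousOn (fun p : PS.E (d + d) × PS.E (d + d) =>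
      ∑ i, ∑ j, h p.1 i j * p.2 i * p.2 j)
      (Ellip.Kc d A B P ×ˢ Metric.sphere (0 : PS.E (d + d)) 1) :=
    (Ellip.form_cont hm).mono (prod_mono (Ellip.Kc_sub hB) (subset_univ _))
  have main : ∀ c0 : ℝ, (∀ p ∈ Ellip.Kc d A B P ×ˢ Metric.sphere (0 : PS.E (d + d)) 1,
      c0 ≤ ∑ i, ∑ j, h p.1 i j * p.2 i * p.2 j) → ∀ x ∈ slab d A B, ∀ v : PS.E (d + d),
      c0 * ‖v‖ ^ 2 ≤ ∑ i, ∑ j, h x i j * v i * v j := by
    intro c0 hc0 x hx v
    by_cases hv : v = 0
    · subst hv; simp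
    have hvn : 0 < ‖v‖ := norm_pos_iff.2 hv
    obtain ⟨y, hy, hyx⟩ := Ellip.reduce hP hB hper hx
    have h1 := hc0 (y, ‖v‖⁻¹ • v) ⟨hy, by
      simp only [mem_sphere_iff_norm, sub_zero, norm_smul, norm_inv, norm_norm]
      exact inv_mul_cancel₀ hvn.ne'⟩
    simp only [hyx] at h1
    have h2 : ∑ i, ∑ j, h x i j * (‖v‖⁻¹ • v) i * (‖v‖⁻¹ • v) j =
        (‖v‖ ^ 2)⁻¹ * ∑ i, ∑ j, h x i j * v i * v j := by
      simp only [Finset.mul_sum, PiLp.smul_apply, smul_eq_mul]
      refine Finset.sum_congr rfl fun i _ => Finset.sum_congr rfl fun j _ => ?_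
      ring
    rw [h2] at h1
    have hv2 : 0 < ‖v‖ ^ 2 := by positivity
    calc c0 * ‖v‖ ^ 2 ≤ ((‖v‖ ^ 2)⁻¹ * ∑ i, ∑ j, h x i j * v i * v j) * ‖v‖ ^ 2 :=
          mul_le_mul_of_nonneg_right h1 hv2.le
      _ = ∑ i, ∑ j, h x i j * v i * v j := by
          rw [mul_comm, ← mul_assoc, mul_inv_cancel₀ hv2.ne', one_mul]
  rcases (Ellip.Kc d A B P ×ˢ Metric.sphere (0 : PS.E (d + d)) 1).eq_empty_or_nonempty with he | hne
  · exact ⟨1, one_pos, main 1 (by rw [he]; simp)⟩
  · obtain ⟨p, hp, hmin⟩ := hK.exists_isMinOn hne hc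
    refine ⟨∑ i, ∑ j, h p.1 i j * p.2 i * p.2 j, ?_, main _ fun q hq => hmin hq⟩
    refine Ellip.form_pos (hm.posDef _ (Ellip.Kc_sub hB hp.1)) ?_
    intro h0
    have := hp.2
    rw [h0] at this
    simp at this

/-- the twist functions are Lipschitz for the metric -/
theorem twist_lip (d : ℕ) (h : PS.E (d + d) → Matrix (Fin (d + d)) (Fin (d + d)) ℝ)
    (hm : PS.IsMetricOn h (shortRegion d)) (A B : Fin d → ℝ) (hB : ∀ e, B e < 0) (c0 : ℝ)
    (hc0 : 0 < c0) (hell : ∀ x ∈ slab d A B, ∀ v : PS.E (d + d),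
      c0 * ‖v‖ ^ 2 ≤ ∑ i, ∑ j, h x i j * v i * v j) (k : Fin (d + d)) (x y : PS.E (d + d))
    (hxy : segment ℝ x y ⊆ slab d A B) :
    |Real.sqrt c0 * x k - Real.sqrt c0 * y k| ≤ PS.segLen h x y := by
  have hseg : ∀ s ∈ Icc (0 : ℝ) 1, x + s • (y - x) ∈ slab d A B := by
    intro s hs
    apply hxy
    rw [segment_eq_image']
    exact ⟨s, hs, rfl⟩
  have hpt : ∀ s ∈ Icc (0 : ℝ) 1, Real.sqrt c0 * ‖y - x‖ ≤
      PS.vnorm h (x + s • (y - x)) (y - x) := by
    intro s hs
    have h1 := hell _ (hseg s hs) (y - x)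
    unfold PS.vnorm
    rw [← Real.sqrt_sq (norm_nonneg (y - x)), ← Real.sqrt_mul hc0.le]
    exact Real.sqrt_le_sqrt h1
  have hcont : ContinuousOn (fun s : ℝ => PS.vnorm h (x + s • (y - x)) (y - x)) (Icc 0 1) := by
    unfold PS.vnorm
    refine Real.continuous_sqrt.comp_continuousOn ?_
    have h1 := Ellip.form_cont hm
    have h2 : ContinuousOn (fun s : ℝ => ((x + s • (y - x), y - x) : PS.E (d + d) × PS.E (d + d)))
        (Icc 0 1) := by fun_prop
    have h3 := h1.comp h2 (fun s hs => ⟨fun e => lt_trans (hseg s hs e).2 (hB e), mem_univ _⟩)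
    exact h3
  have hint : IntervalIntegrable (fun s : ℝ => PS.vnorm h (x + s • (y - x)) (y - x)) volume 0 1 :=
    ContinuousOn.intervalIntegrable (by rwa [uIcc_of_le zero_le_one])
  have h1 : Real.sqrt c0 * ‖y - x‖ ≤ PS.segLen h x y := by
    unfold PS.segLen
    have h2 : ∫ s in (0 : ℝ)..1, Real.sqrt c0 * ‖y - x‖ = Real.sqrt c0 * ‖y - x‖ := by simp
    rw [← h2]
    exact intervalIntegral.integral_mono_on zero_le_one intervalIntegrable_const hint
      (fun s hs => hpt s hs)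
  have h2 : |Real.sqrt c0 * x k - Real.sqrt c0 * y k| = Real.sqrt c0 * |(y - x) k| := by
    rw [← mul_sub, abs_mul, abs_of_nonneg (Real.sqrt_nonneg _), PiLp.sub_apply, abs_sub_comm]
  have h3 : |(y - x) k| ≤ ‖y - x‖ := by
    simpa using PiLp.norm_apply_le (y - x) k
  rw [h2]
  exact (mul_le_mul_of_nonneg_left h3 (Real.sqrt_nonneg _)).trans h1

end Pool.Agent.DC
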