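import Pool.Agent.H96.PS.ADefs

/-!
# Project DC, block E: translations of metrics; the box theorem with an arbitrary centre
-/

open scoped ENNReal Matrix ContDiff
open MeasureTheory Set

namespace Pool.Agent.DC

variable {N : ℕ}

theorem pd_translate {F : Type*} [NormedAddCommGroup F] [NormedSpace ℝ F] (i : Fin N)
    (f : PS.E N → F) (v x : PS.E N) :
    PS.pd i (fun y => f (y + v)) x = PS.pd i f (x + v) := by
  unfold PS.pd
  rw [fderiv_comp_add_right]

theorem chr_translate (h : PS.E N → Matrix (Fin N) (Fin N) ℝ) (v x : PS.E N) (i j k : Fin N) :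
    PS.chr (fun y => h (y + v)) x i j k = PS.chr h (x + v) i j k := by
  have e : ∀ a b c, PS.pd a (fun y => h (y + v) b c) x = PS.pd a (fun y => h y b c) (x + v) :=
    fun a b c => pd_translate a (fun y => h y b c) v x
  simp only [PS.chr, e]

theorem curv_translate (h : PS.E N → Matrix (Fin N) (Fin N) ℝ) (v x : PS.E N) (i j l k : Fin N) :
    PS.curv (fun y => h (y + v)) x i j l k = PS.curv h (x + v) i j l k := by
  have e : ∀ a b c d, PS.pd a (fun y => PS.chr h (y + v) b c d) x =
      PS.pd a (fun y => PS.chr h y b c d) (x + v) :=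
    fun a b c d => pd_translate a (fun y => PS.chr h y b c d) v x
  simp only [PS.curv, chr_translate, e]

/-- translation invariance of the scalar curvature -/
theorem scal_translate (h : PS.E N → Matrix (Fin N) (Fin N) ℝ) (v x : PS.E N) :
    PS.scal (fun y => h (y + v)) x = PS.scal h (x + v) := by
  simp only [PS.scal, curv_translate]

theorem isMetricOn_translate {h : PS.E N → Matrix (Fin N) (Fin N) ℝ} {U : Set (PS.E N)}
    (hm : PS.IsMetricOn h U) (v : PS.E N) :
    PS.IsMetricOn (fun y => h (y + v)) {y | y + v ∈ U} where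
  smooth := fun i j => (hm.smooth i j).comp (contDiff_id.add contDiff_const).contDiffOn
    fun x hx => hx
  posDef := fun x hx => hm.posDef (x + v) hx

theorem segLen_translate (h : PS.E N → Matrix (Fin N) (Fin N) ℝ) (v x y : PS.E N) :
    PS.segLen (fun z => h (z + v)) x y = PS.segLen h (x + v) (y + v) := by
  unfold PS.segLen
  refine intervalIntegral.integral_congr fun s _ => ?_
  have e1 : y + v - (x + v) = y - x := by abel
  have e2 : x + v + s • (y - x) = x + s • (y - x) + v := by abel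
  show PS.vnorm (fun z => h (z + v)) (x + s • (y - x)) (y - x) =
    PS.vnorm h (x + v + s • (y + v - (x + v))) (y + v - (x + v))
  rw [e1, e2]
  rfl

theorem vnorm_neg (h : PS.E N → Matrix (Fin N) (Fin N) ℝ) (x v : PS.E N) :
    PS.vnorm h x (-v) = PS.vnorm h x v := by
  unfold PS.vnorm
  congr 1
  refine Finset.sum_congr rfl fun i _ => Finset.sum_congr rfl fun j _ => ?_
  simp only [PiLp.neg_apply]
  ring

theorem segLen_comm (h : PS.E N → Matrix (Fin N) (Fin N) ℝ) (x y : PS.E N) :
    PS.segLen h x y = PS.segLen h y x := by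
  unfold PS.segLen
  have h1 := intervalIntegral.integral_comp_sub_left (a := (0 : ℝ)) (b := 1)
    (fun s => PS.vnorm h (x + s • (y - x)) (y - x)) 1
  rw [sub_self, sub_zero] at h1
  rw [← h1]
  refine intervalIntegral.integral_congr fun s _ => ?_
  have e1 : x + (1 - s) • (y - x) = y + s • (x - y) := by
    rw [sub_smul, one_smul, ← neg_sub x y, smul_neg]
    abel
  have e2 : y - x = -(x - y) := (neg_sub x y).symm
  show PS.vnorm h (x + (1 - s) • (y - x)) (y - x) = PS.vnorm h (y + s • (x - y)) (x - y)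
  rw [e1, e2, vnorm_neg]

theorem segLen_nonneg (h : PS.E N → Matrix (Fin N) (Fin N) ℝ) (x y : PS.E N) :
    0 ≤ PS.segLen h x y :=
  intervalIntegral.integral_nonneg zero_le_one fun _ _ => Real.sqrt_nonneg _

theorem segLen_self (h : PS.E N → Matrix (Fin N) (Fin N) ℝ) (x : PS.E N) :
    PS.segLen h x x = 0 := by
  unfold PS.segLen PS.vnorm
  simp

/-- a smaller metric set -/
theorem isMetricOn_mono {h : PS.E N → Matrix (Fin N) (Fin N) ℝ} {U W : Set (PS.E N)}
    (hm : PS.IsMetricOn h U) (hW : W ⊆ U) : PS.IsMetricOn h W where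
  smooth := fun i j => (hm.smooth i j).mono hW
  posDef := fun x hx => hm.posDef x (hW hx)

/-- a box version of `PS.cube_lip` for arbitrary centres -/
def CubeLip : Prop := ∀ (N : ℕ) (c : ℝ), 0 < c → ∃ ρ : ℝ, 0 < ρ ∧
    ∀ (U : Set (PS.E N)) (G : PS.E N → Matrix (Fin N) (Fin N) ℝ) (r : Fin N → ℝ)
      (f : Fin N → PS.E N → ℝ),
      IsOpen U → (∀ j, 0 < r j) → PS.box r ⊆ U → PS.IsMetricOn G U →
      (∀ x ∈ PS.box r, c ≤ PS.scal G x) →
      (∀ j, ∀ x y, segment ℝ x y ⊆ U → |f j x - f j y| ≤ PS.segLen G x y) →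
      (∀ j, ∀ x ∈ PS.box r, x j = - r j → f j x ≤ -ρ) →
      (∀ j, ∀ x ∈ PS.box r, x j = r j → ρ ≤ f j x) → False

theorem cube_lip_center (H : CubeLip) (N : ℕ) (c : ℝ) (hc : 0 < c) : ∃ ρ : ℝ, 0 < ρ ∧
    ∀ (U : Set (PS.E N)) (G : PS.E N → Matrix (Fin N) (Fin N) ℝ) (a b : Fin N → ℝ)
      (f : Fin N → PS.E N → ℝ),
      IsOpen U → (∀ j, a j < b j) → {x : PS.E N | ∀ j, a j ≤ x j ∧ x j ≤ b j} ⊆ U →
      PS.IsMetricOn G U → (∀ x : PS.E N, (∀ j, a j ≤ x j ∧ x j ≤ b j) → c ≤ PS.scal G x) →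
      (∀ j, ∀ x y, segment ℝ x y ⊆ U → |f j x - f j y| ≤ PS.segLen G x y) →
      (∀ j, ∀ x : PS.E N, (∀ k, a k ≤ x k ∧ x k ≤ b k) → x j = a j → f j x ≤ -ρ) →
      (∀ j, ∀ x : PS.E N, (∀ k, a k ≤ x k ∧ x k ≤ b k) → x j = b j → ρ ≤ f j x) → False := by
  obtain ⟨ρ, hρ, key⟩ := H N c hc
  refine ⟨ρ, hρ, ?_⟩
  intro U G a b f hU hab hbox hG hs hf hl hr
  set v : PS.E N := WithLp.toLp 2 fun j => (a j + b j) / 2 with hv
  have hvj : ∀ j, v j = (a j + b j) / 2 := fun j => rfl
  have hco : ∀ (y : PS.E N), y ∈ PS.box (fun j => (b j - a j) / 2) →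
      ∀ k, a k ≤ (y + v) k ∧ (y + v) k ≤ b k := by
    intro y hy k
    have h1 := abs_le.1 (hy k)
    rw [PiLp.add_apply, hvj]
    constructor <;> linarith [h1.1, h1.2]
  refine key {y | y + v ∈ U} (fun y => G (y + v)) (fun j => (b j - a j) / 2)
    (fun j y => f j (y + v)) ?_ ?_ ?_ ?_ ?_ ?_ ?_ ?_
  · exact hU.preimage (continuous_id.add continuous_const)
  · intro j
    have := hab j
    show 0 < (b j - a j) / 2
    linarith
  · intro y hy
    exact hbox (hco y hy)
  · exact isMetricOn_translate hG v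
  · intro y hy
    rw [scal_translate]
    exact hs _ (hco y hy)
  · intro j x y hxy
    rw [segLen_translate]
    refine hf j (x + v) (y + v) ?_
    rintro z ⟨α, β, hα, hβ, hαβ, rfl⟩
    have h1 : α • x + β • y ∈ segment ℝ x y := ⟨α, β, hα, hβ, hαβ, rfl⟩
    have h2 : α • (x + v) + β • (y + v) = α • x + β • y + v := by
      rw [smul_add, smul_add]
      have : α • v + β • v = v := by rw [← add_smul, hαβ, one_smul]
      calc α • x + α • v + (β • y + β • v) = α • x + β • y + (α • v + β • v) := by abel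
        _ = _ := by rw [this]
    rw [h2]
    exact hxy h1
  · intro j y hy hj
    refine hl j (y + v) (hco y hy) ?_
    rw [PiLp.add_apply, hvj, hj]
    ring
  · intro j y hy hj
    refine hr j (y + v) (hco y hy) ?_
    rw [PiLp.add_apply, hvj, hj]
    ring

end Pool.Agent.DC
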