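import Pool.Agent.DC.E.Ellip
import Pool.Agent.DC.E.Trans
import Pool.Agent.DC.D.Faces

/-! Project DC, block E: the distance to the short face of a direction. -/

open scoped ENNReal UpperHalfPlane Matrix ContDiff
open MeasureTheory Set

namespace Pool.Agent.DC

open PantsGraph

/-- the distance to the short face of the direction `i` -/
theorem face_function (G : PantsGraph) (F : ∀ x : G.Teich, FN x)
    (h : PS.E (G.d + G.d) → Matrix (Fin (G.d + G.d)) (Fin (G.d + G.d)) ℝ)
    (D : G.Teich → G.Teich → ℝ≥0∞)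
    (hD1 : ∀ x y : G.Teich, segment ℝ x y ⊆ shortRegion G.d →
      D x y ≤ ENNReal.ofReal (PS.segLen h x y))
    (hD2 : ∀ x ∈ shortRegion G.d, ∀ y ∈ shortRegion G.d, ∀ z ∈ shortRegion G.d,
      D x z ≤ D x y + D y z)
    (A B : ℝ) (hA : 0 < A)
    (hD3 : ∀ x ∈ shortRegion G.d, ∀ y ∈ shortRegion G.d, ∀ R : ℝ, 0 ≤ R →
      D x y ≤ ENNReal.ofReal R → LenDom (F x) (F y) (Real.exp (A * R + B)))
    (L : ℝ) (hL : 0 < L) (lo hi : Fin G.d → ℝ) (hlo : ∀ e, hi e = lo e + 2 * L)
    (hhi : ∀ e, hi e < 0) (hord : ∀ e f, e < f → hi f < lo e) (i : Fin G.d)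
    (a b : Fin G.d → ℝ) (ha : ∀ e, a e < lo e) (hb : ∀ e, hi e < b e) (hb0 : ∀ e, b e < 0) :
    ∃ f : G.Teich → ℝ,
      (∀ x y : G.Teich, segment ℝ x y ⊆ slab G.d a b → |f x - f y| ≤ PS.segLen h x y) ∧
      (∀ x : G.Teich, (∀ e, lo e ≤ x (Fin.castAdd G.d e) ∧ x (Fin.castAdd G.d e) ≤ hi e) →
        x (Fin.castAdd G.d i) = lo i → f x ≤ 0) ∧
      (∀ x : G.Teich, (∀ e, lo e ≤ x (Fin.castAdd G.d e) ∧ x (Fin.castAdd G.d e) ≤ hi e) →
        x (Fin.castAdd G.d i) = hi i → (2 * L - B) / A ≤ f x) := by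
  classical
  -- the short face
  let S : Set G.Teich := {y | (∀ e, lo e ≤ y (Fin.castAdd G.d e) ∧ y (Fin.castAdd G.d e) ≤ hi e) ∧
    y (Fin.castAdd G.d i) = lo i}
  let I : G.Teich → ℝ≥0∞ := fun x => ⨅ y ∈ S, D x y
  have hlohi : ∀ e, lo e ≤ hi e := fun e => by rw [hlo e]; linarith
  have hslab : slab G.d a b ⊆ shortRegion G.d := fun x hx e => lt_trans (hx e).2 (hb0 e)
  have hbox : ∀ x : G.Teich, (∀ e, lo e ≤ x (Fin.castAdd G.d e) ∧ x (Fin.castAdd G.d e) ≤ hi e) →
      x ∈ slab G.d a b := fun x hx e =>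
    ⟨lt_of_lt_of_le (ha e) (hx e).1, lt_of_le_of_lt (hx e).2 (hb e)⟩
  have hSs : ∀ y ∈ S, y ∈ slab G.d a b := fun y hy => hbox y hy.1
  -- a point of the short face
  obtain ⟨y0, hy0⟩ : ∃ y0 : G.Teich, y0 ∈ S := by
    refine ⟨WithLp.toLp 2 (Fin.append lo (fun _ => (0 : ℝ))), ?_, ?_⟩
    · intro e
      have : (WithLp.toLp 2 (Fin.append lo (fun _ : Fin G.d => (0 : ℝ))) : G.Teich)
          (Fin.castAdd G.d e) = lo e := by
        show Fin.append lo (fun _ : Fin G.d => (0 : ℝ)) (Fin.castAdd G.d e) = lo e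
        rw [Fin.append_left]
      rw [this]
      exact ⟨le_rfl, hlohi e⟩
    · show Fin.append lo (fun _ : Fin G.d => (0 : ℝ)) (Fin.castAdd G.d i) = lo i
      rw [Fin.append_left]
  have hfin : ∀ x ∈ slab G.d a b, I x ≠ ⊤ := by
    intro x hx
    have hseg : segment ℝ x y0 ⊆ shortRegion G.d :=
      (convex_shortRegion G.d).segment_subset (hslab hx) (hslab (hSs y0 hy0))
    have h1 : I x ≤ ENNReal.ofReal (PS.segLen h x y0) :=
      (iInf₂_le y0 hy0).trans (hD1 x y0 hseg)
    exact ne_top_of_le_ne_top ENNReal.ofReal_ne_top h1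
  have hlip : ∀ x y : G.Teich, segment ℝ x y ⊆ slab G.d a b →
      (I x).toReal - (I y).toReal ≤ PS.segLen h x y := by
    intro x y hxy
    have hx : x ∈ slab G.d a b := hxy (left_mem_segment ℝ x y)
    have hy : y ∈ slab G.d a b := hxy (right_mem_segment ℝ x y)
    have h1 : D x y ≤ ENNReal.ofReal (PS.segLen h x y) := hD1 x y (hxy.trans hslab)
    have h2 : I x ≤ ENNReal.ofReal (PS.segLen h x y) + I y := by
      rw [← tsub_le_iff_left]
      refine le_iInf₂ fun z hz => ?_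
      rw [tsub_le_iff_left]
      refine (iInf₂_le z hz).trans ?_
      refine (hD2 x (hslab hx) y (hslab hy) z (hslab (hSs z hz))).trans ?_
      exact add_le_add_left h1 _
    have h3 := ENNReal.toReal_mono (ENNReal.add_ne_top.2 ⟨ENNReal.ofReal_ne_top, hfin y hy⟩) h2
    rw [ENNReal.toReal_add ENNReal.ofReal_ne_top (hfin y hy),
      ENNReal.toReal_ofReal (segLen_nonneg h x y)] at h3
    linarith
  refine ⟨fun x => (I x).toReal, ?_, ?_, ?_⟩
  · intro x y hxy
    rw [abs_le]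
    refine ⟨?_, hlip x y hxy⟩
    have := hlip y x (by rw [segment_symm]; exact hxy)
    rw [segLen_comm] at this
    linarith
  · intro x hx hxi
    have hxS : x ∈ S := ⟨hx, hxi⟩
    have hseg : segment ℝ x x ⊆ shortRegion G.d := by
      rw [segment_same]
      exact Set.singleton_subset_iff.2 (hslab (hbox x hx))
    have h1 : I x ≤ 0 := by
      refine (iInf₂_le x hxS).trans ((hD1 x x hseg).trans ?_)
      rw [segLen_self]; simp
    have h2 : I x = 0 := le_antisymm h1 bot_le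
    show (I x).toReal ≤ 0
    rw [h2]; simp
  · intro x hx hxi
    show (2 * L - B) / A ≤ (I x).toReal
    have hxs : x ∈ slab G.d a b := hbox x hx
    rw [← ENNReal.ofReal_le_iff_le_toReal (hfin x hxs)]
    refine le_iInf₂ fun y hy => ?_
    by_contra hcon
    rw [not_le] at hcon
    have hDfin : D x y ≠ ⊤ := ne_top_of_lt hcon
    have hR := hD3 x (hslab hxs) y (hslab (hSs y hy)) (D x y).toReal ENNReal.toReal_nonneg
      (ENNReal.ofReal_toReal hDfin).ge
    have hf := faces (F x) (F y) (fun e => ?_) i L (fun j hj => ?_) (fun j hj => ?_) ?_ _ hR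
    · rw [Real.exp_le_exp] at hf
      have h2 : (2 * L - B) / A ≤ (D x y).toReal := by
        rw [div_le_iff₀ hA]; linarith
      have h3 : ENNReal.ofReal ((2 * L - B) / A) ≤ D x y := by
        rw [ENNReal.ofReal_le_iff_le_toReal hDfin]; exact h2
      exact absurd hcon (not_lt.2 h3)
    · unfold len
      rw [Real.exp_le_one_iff]
      exact ((hx e).2.trans (hhi e).le)
    · unfold len
      rw [Real.exp_le_exp, hxi]
      exact (hord j i hj).le.trans (hx j).1
    · unfold len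
      rw [Real.exp_le_exp, hy.2]
      exact (hy.1 j).2.trans (hord i j hj).le
    · unfold len
      rw [← Real.exp_add, hxi, hy.2, hlo i]
      congr 1; ring

end Pool.Agent.DC
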