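import Pool.Agent.DC.D.FNExists

/-!
# Project DC, block E: Dehn twists
-/

open scoped ENNReal UpperHalfPlane Matrix ContDiff
open MeasureTheory Set

namespace Pool.Agent.DC

namespace PantsGraph

namespace Twist

variable (G : PantsGraph) (e : Fin G.d)

/-- images of the generators under the `k`-th power of the twist along `e` -/
def gen (k : ℤ) : G.Gen → G.PathGroup :=
  Sum.elim G.cuff fun f => if f = e then G.cuff (G.side e false) ^ k * G.edge e else G.edge f

theorem pants_rel (P : Fin G.V) : G.cuff (P, 0) * G.cuff (P, 1) * G.cuff (P, 2) = 1 := by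
  have h : (PresentedGroup.mk G.rels (FreeGroup.of (Sum.inl (P, 0)) *
      FreeGroup.of (Sum.inl (P, 1)) * FreeGroup.of (Sum.inl (P, 2)))) = 1 :=
    PresentedGroup.one_of_mem (Or.inl ⟨P, rfl⟩)
  rw [map_mul, map_mul] at h
  exact h

theorem edge_rel (f : Fin G.d) : G.edge f * G.cuff (G.side f true) * (G.edge f)⁻¹ *
    G.cuff (G.side f false) = 1 := by
  have h : (PresentedGroup.mk G.rels (FreeGroup.of (Sum.inr f) *
      FreeGroup.of (Sum.inl (G.side f true)) * (FreeGroup.of (Sum.inr f))⁻¹ *
      FreeGroup.of (Sum.inl (G.side f false)))) = 1 :=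
    PresentedGroup.one_of_mem (Or.inr ⟨f, rfl⟩)
  rw [map_mul, map_mul, map_mul, map_inv] at h
  exact h

theorem gen_rels (k : ℤ) (r : FreeGroup G.Gen) (hr : r ∈ G.rels) :
    FreeGroup.lift (gen G e k) r = 1 := by
  rcases hr with ⟨P, rfl⟩ | ⟨f, rfl⟩
  · simpa [gen] using pants_rel G P
  · by_cases hf : f = e
    · subst hf
      have h := edge_rel G f
      have h2 : G.edge f * G.cuff (G.side f true) * (G.edge f)⁻¹ =
          (G.cuff (G.side f false))⁻¹ := mul_eq_one_iff_eq_inv.1 h
      have h3 : G.cuff (G.side f false) ^ k * G.edge f * G.cuff (G.side f true) *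
          (G.cuff (G.side f false) ^ k * G.edge f)⁻¹ * G.cuff (G.side f false) = 1 := by
        calc _ = G.cuff (G.side f false) ^ k * (G.edge f * G.cuff (G.side f true) *
              (G.edge f)⁻¹) * (G.cuff (G.side f false) ^ k)⁻¹ * G.cuff (G.side f false) := by
              group
          _ = 1 := by rw [h2]; group
      simpa [gen] using h3
    · have h := edge_rel G f
      simpa [gen, hf] using h

/-- the `k`-th power of the twist along `e`, on the path group -/
def tw (k : ℤ) : G.PathGroup →* G.PathGroup := PresentedGroup.toGroup (gen_rels G e k)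

theorem tw_cuff (k : ℤ) (p : Fin G.V × Fin 3) : tw G e k (G.cuff p) = G.cuff p :=
  PresentedGroup.toGroup.of (gen_rels G e k)

theorem tw_edge (k : ℤ) : tw G e k (G.edge e) = G.cuff (G.side e false) ^ k * G.edge e := by
  have h : tw G e k (G.edge e) = gen G e k (Sum.inr e) :=
    PresentedGroup.toGroup.of (gen_rels G e k)
  rw [h]
  simp [gen]

theorem tw_edge_ne (k : ℤ) {f : Fin G.d} (hf : f ≠ e) : tw G e k (G.edge f) = G.edge f := by
  have h : tw G e k (G.edge f) = gen G e k (Sum.inr f) :=
    PresentedGroup.toGroup.of (gen_rels G e k)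
  rw [h]
  simp [gen, hf]

theorem tw_tw (k l : ℤ) (g : G.PathGroup) : tw G e k (tw G e l g) = tw G e (k + l) g := by
  have h : (tw G e k).comp (tw G e l) = tw G e (k + l) := by
    apply PresentedGroup.ext
    rintro (p | f)
    · have h1 := tw_cuff G e l p
      have h2 := tw_cuff G e k p
      have h3 := tw_cuff G e (k + l) p
      show tw G e k (tw G e l (G.cuff p)) = tw G e (k + l) (G.cuff p)
      rw [h1, h2, h3]
    · show tw G e k (tw G e l (G.edge f)) = tw G e (k + l) (G.edge f)
      by_cases hf : f = e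
      · subst hf
        rw [tw_edge, tw_edge, map_mul, map_zpow, tw_cuff, tw_edge, ← mul_assoc, ← zpow_add,
          add_comm l k]
      · rw [tw_edge_ne G e l hf, tw_edge_ne G e k hf, tw_edge_ne G e (k + l) hf]
  exact DFunLike.congr_fun h g

theorem tw_zero (g : G.PathGroup) : tw G e 0 g = g := by
  have h : tw G e 0 = MonoidHom.id _ := by
    apply PresentedGroup.ext
    rintro (p | f)
    · exact tw_cuff G e 0 p
    · show tw G e 0 (G.edge f) = G.edge f
      by_cases hf : f = e
      · subst hf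
        rw [tw_edge, zpow_zero, one_mul]
      · exact tw_edge_ne G e 0 hf
  exact DFunLike.congr_fun h g

theorem isPath_zpow (p : Fin G.V × Fin 3) (k : ℤ) : G.IsPath p.1 p.1 (G.cuff p ^ k) := by
  have h1 : G.IsPath p.1 p.1 (G.cuff p) := by
    have := (IsPath.refl (G := G) p.1).cuff p.2
    rwa [one_mul] at this
  have h2 : ∀ n : ℕ, G.IsPath p.1 p.1 (G.cuff p ^ n) := by
    intro n
    induction n with
    | zero => rw [pow_zero]; exact IsPath.refl _
    | succ n ih => rw [pow_succ]; exact ih.mul h1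
  rcases Int.eq_nat_or_neg k with ⟨n, rfl | rfl⟩
  · rw [zpow_natCast]
    exact h2 n
  · rw [zpow_neg, zpow_natCast]
    exact (h2 n).inv

theorem isPath_tw (k : ℤ) {P Q : Fin G.V} {g : G.PathGroup} (h : G.IsPath P Q g) :
    G.IsPath P Q (tw G e k g) := by
  have hE : ∀ f : Fin G.d, G.IsPath (G.side f false).1 (G.side f true).1
      (tw G e k (G.edge f)) := by
    intro f
    by_cases hf : f = e
    · subst hf
      rw [tw_edge]
      exact (isPath_zpow G (G.side f false) k).edge f
    · rw [tw_edge_ne G e k hf]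
      have := (IsPath.refl (G := G) (G.side f false).1).edge f
      rwa [one_mul] at this
  induction h with
  | refl => rw [map_one]; exact IsPath.refl _
  | cuff i _ ih => rw [map_mul, tw_cuff]; exact ih.cuff i
  | cuffInv i _ ih => rw [map_mul, map_inv, tw_cuff]; exact ih.cuffInv i
  | edge f _ ih => rw [map_mul]; exact ih.mul (hE f)
  | edgeInv f _ ih => rw [map_mul, map_inv]; exact ih.mul (hE f).inv

/-- the `k`-th power of the twist along `e`, on the fundamental group -/
def twA (k : ℤ) : MulAut G.pi1 where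
  toFun γ := ⟨tw G e k γ, isPath_tw G e k γ.2⟩
  invFun γ := ⟨tw G e (-k) γ, isPath_tw G e (-k) γ.2⟩
  left_inv γ := by
    apply Subtype.ext
    show tw G e (-k) (tw G e k γ) = γ
    rw [tw_tw, neg_add_cancel, tw_zero]
  right_inv γ := by
    apply Subtype.ext
    show tw G e k (tw G e (-k) γ) = γ
    rw [tw_tw, add_neg_cancel, tw_zero]
  map_mul' γ δ := by
    apply Subtype.ext
    exact map_mul (tw G e k) (γ : G.PathGroup) (δ : G.PathGroup)

theorem twA_coe (k : ℤ) (γ : G.pi1) : ((twA G e k γ : G.pi1) : G.PathGroup) = tw G e k γ := rfl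

theorem twA_per (k : ℤ) (γ : G.pi1) (h : G.IsPeripheral γ) : G.IsPeripheral (twA G e k γ) := by
  obtain ⟨j, w, hw, h⟩ := h
  refine ⟨j, tw G e k w, isPath_tw G e k hw, ?_⟩
  rw [twA_coe]
  rcases h with h | h
  · left
    rw [h, map_mul, map_mul, map_inv, tw_cuff]
  · right
    rw [h, map_mul, map_mul, map_inv, map_inv, tw_cuff]

theorem twA_mem (k : ℤ) : twA G e k ∈ G.autStar := by
  intro γ
  refine ⟨fun h => ?_, twA_per G e k γ⟩
  have h1 := twA_per G e (-k) _ h
  have h2 : twA G e (-k) (twA G e k γ) = γ := by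
    apply Subtype.ext
    rw [twA_coe, twA_coe, tw_tw, neg_add_cancel, tw_zero]
  rwa [h2] at h1

theorem twA_pow (n : ℕ) (γ : G.pi1) :
    (((twA G e 1 ^ n) γ : G.pi1) : G.PathGroup) = tw G e n γ := by
  induction n generalizing γ with
  | zero =>
    rw [pow_zero, MulAut.one_apply]
    exact (tw_zero G e γ).symm
  | succ n ih =>
    rw [pow_succ, MulAut.mul_apply, ih, twA_coe, tw_tw]
    push_cast
    rfl

variable {G} {e}

theorem dil_add (s t : ℝ) : dil (s + t) = dil s * dil t := by
  apply Subtype.ext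
  rw [Matrix.SpecialLinearGroup.coe_mul, dil_coe, dil_coe, dil_coe]
  simp only [Matrix.mul_fin_two, mul_zero, zero_mul, add_zero, zero_add, ← Real.exp_add]
  congr 3
  · ring_nf
  · ring_nf

theorem dil_nsmul (n : ℕ) (t : ℝ) : dil (n * t) = dil t ^ n := by
  induction n with
  | zero =>
    rw [pow_zero]
    apply Subtype.ext
    rw [dil_coe]
    simp [Matrix.one_fin_two]
  | succ n ih =>
    rw [pow_succ, ← ih, ← dil_add]
    congr 1
    push_cast
    ring

theorem neg_pow_or (A : SL2) (n : ℕ) : (-A) ^ n = A ^ n ∨ (-A) ^ n = -A ^ n := by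
  rcases Nat.even_or_odd n with h | h
  · exact Or.inl (h.neg_pow A)
  · exact Or.inr (h.neg_pow A)

/-- equality up to sign of the holonomies -/
theorem hol_or {x y : G.Teich} (Fx : FN x) (Fy : FN y) (n : ℕ)
    (hy : y = x + (2 * Real.pi * n) • EuclideanSpace.single (Fin.natAdd G.d e) (1 : ℝ))
    (hs : Fy.s = Fx.s) (hN : Fy.N = Fx.N) {P Q : Fin G.V} {g : G.PathGroup}
    (hg : G.IsPath P Q g) :
    Fy.hol g = Fx.hol (tw G e n g) ∨ Fy.hol g = -Fx.hol (tw G e n g) := by
  have hlen : ∀ f, len y f = len x f := by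
    intro f
    unfold len
    rw [hy]
    have h1 : Fin.castAdd G.d f ≠ Fin.natAdd G.d e := by
      intro h
      have h2 := congrArg Fin.val h
      simp at h2
      have := f.2
      omega
    rw [PiLp.add_apply, PiLp.smul_apply, PiLp.single_apply, if_neg h1, smul_zero,
      add_zero]
  have hshift : ∀ f, f ≠ e → shift y f = shift x f := by
    intro f hf
    unfold shift
    rw [hlen f, hy]
    have h1 : Fin.natAdd G.d f ≠ Fin.natAdd G.d e := by
      intro h
      exact hf ((Fin.natAdd_injective _ _) h)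
    rw [PiLp.add_apply, PiLp.smul_apply, PiLp.single_apply, if_neg h1, smul_zero,
      add_zero]
  have hshifte : shift y e = n * len x e + shift x e := by
    unfold shift
    rw [hlen e, hy]
    have h2 := Real.pi_pos
    simp
    field_simp
    ring
  have hcuff : ∀ p, Fy.hol (G.cuff p) = Fx.hol (tw G e n (G.cuff p)) := by
    intro p
    rw [tw_cuff, FN.hol_cuff, FN.hol_cuff]
    apply Subtype.ext
    show Fy.s p.1 (p.2 + 1) * Fy.s p.1 (p.2 + 2) = Fx.s p.1 (p.2 + 1) * Fx.s p.1 (p.2 + 2)
    rw [hs]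
  have hedge : ∀ f, Fy.hol (G.edge f) = Fx.hol (tw G e n (G.edge f)) ∨
      Fy.hol (G.edge f) = -Fx.hol (tw G e n (G.edge f)) := by
    intro f
    by_cases hf : f = e
    · subst hf
      rw [tw_edge, map_mul, map_zpow, zpow_natCast, FN.hol_edge, FN.hol_edge, FN.hol_cuff]
      have h1 : Fx.cuffM (G.side f false) =
          -(Fx.N f false * dil (len x f) * (Fx.N f false)⁻¹) := by
        apply Subtype.ext
        rw [Matrix.SpecialLinearGroup.coe_neg]
        exact Fx.N_cuff f false
      have h2 : Fy.edgeM f = (Fx.N f false * dil (len x f) * (Fx.N f false)⁻¹) ^ n *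
          Fx.edgeM f := by
        rw [conj_pow, FN.edgeM, FN.edgeM, hN, hshifte, dil_add, dil_nsmul]
        group
      rw [h1, h2]
      rcases neg_pow_or (Fx.N f false * dil (len x f) * (Fx.N f false)⁻¹) n with h | h
      · left
        rw [h]
      · right
        rw [h, neg_mul, neg_neg]
    · left
      rw [tw_edge_ne G e n hf, FN.hol_edge, FN.hol_edge, FN.edgeM, FN.edgeM, hN, hshift f hf]
  have hmul : ∀ a b : G.PathGroup,
      (Fy.hol a = Fx.hol (tw G e n a) ∨ Fy.hol a = -Fx.hol (tw G e n a)) →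
      (Fy.hol b = Fx.hol (tw G e n b) ∨ Fy.hol b = -Fx.hol (tw G e n b)) →
      (Fy.hol (a * b) = Fx.hol (tw G e n (a * b)) ∨
        Fy.hol (a * b) = -Fx.hol (tw G e n (a * b))) := by
    intro a b ha hb
    rw [map_mul, map_mul, map_mul]
    rcases ha with ha | ha <;> rcases hb with hb | hb <;> rw [ha, hb]
    · exact Or.inl rfl
    · exact Or.inr (mul_neg _ _)
    · exact Or.inr (neg_mul _ _)
    · exact Or.inl (neg_mul_neg _ _)
  have hinv : ∀ a : G.PathGroup,
      (Fy.hol a = Fx.hol (tw G e n a) ∨ Fy.hol a = -Fx.hol (tw G e n a)) →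
      (Fy.hol a⁻¹ = Fx.hol (tw G e n a⁻¹) ∨ Fy.hol a⁻¹ = -Fx.hol (tw G e n a⁻¹)) := by
    intro a ha
    rw [map_inv, map_inv, map_inv]
    rcases ha with ha | ha <;> rw [ha]
    · exact Or.inl rfl
    · refine Or.inr (inv_eq_of_mul_eq_one_left ?_)
      rw [neg_mul_neg, inv_mul_cancel]
  induction hg with
  | refl => left; rw [map_one, map_one, map_one]
  | cuff i _ ih => exact hmul _ _ ih (Or.inl (hcuff _))
  | cuffInv i _ ih => exact hmul _ _ ih (hinv _ (Or.inl (hcuff _)))
  | edge f _ ih => exact hmul _ _ ih (hedge f)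
  | edgeInv f _ ih => exact hmul _ _ ih (hinv _ (hedge f))

end Twist

/-- Dehn twists: automorphisms of the fundamental group realised by the translations
by `2 π` of the twist coordinates -/
theorem exists_twist (G : PantsGraph) (e : Fin G.d) : ∃ τ ∈ G.autStar,
    ∀ (n : ℕ) (x y : G.Teich) (Fx : FN x) (Fy : FN y),
      y = x + (2 * Real.pi * n) • EuclideanSpace.single (Fin.natAdd G.d e) (1 : ℝ) →
      Fy.s = Fx.s → Fy.N = Fx.N → ∀ γ : G.pi1, ∃ σ : ℝ, (σ = 1 ∨ σ = -1) ∧
        ((Fy.hol (γ : G.PathGroup) : SL2) : M2) =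
          σ • ((Fx.hol (((τ ^ n) γ : G.pi1) : G.PathGroup) : SL2) : M2) := by
  refine ⟨Twist.twA G e 1, Twist.twA_mem G e 1, ?_⟩
  intro n x y Fx Fy hy hs hN γ
  rw [Twist.twA_pow]
  rcases Twist.hol_or Fx Fy n hy hs hN γ.2 with h | h
  · refine ⟨1, Or.inl rfl, ?_⟩
    rw [h, one_smul]
  · refine ⟨-1, Or.inr rfl, ?_⟩
    rw [h, Matrix.SpecialLinearGroup.coe_neg, neg_smul, one_smul]

end PantsGraph

end Pool.Agent.DC
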